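import Mathlib

/-! Forcing numbers of perfect matchings: basic notions and the reduction of
`f(G) ≥ n - 2` to uniquely matchable six vertex subgraphs. -/

namespace Helper66.FN

open SimpleGraph

universe u

variable {V : Type u} {G : SimpleGraph V}

/-- `S` is a forcing set of the perfect matching `M`: it consists of edges of `M` and `M` is the
only perfect matching of `G` that contains `S`. -/
def IsForcing (G : SimpleGraph V) (M : G.Subgraph) (S : Finset (Sym2 V)) : Prop :=
  (S : Set (Sym2 V)) ⊆ M.edgeSet ∧
    ∀ M' : G.Subgraph, M'.IsPerfectMatching → (S : Set (Sym2 V)) ⊆ M'.edgeSet → M' = M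

/-- The forcing number `f(G, M)`: the smallest size of a forcing set of `M`. -/
noncomputable def forcingNumber (G : SimpleGraph V) (M : G.Subgraph) : ℕ :=
  sInf {k | ∃ S : Finset (Sym2 V), IsForcing G M S ∧ S.card = k}

/-- The minimum forcing number `f(G)`: the minimum of `f(G, M)` over all perfect matchings `M`. -/
noncomputable def minForcing (G : SimpleGraph V) : ℕ :=
  sInf {k | ∃ M : G.Subgraph, M.IsPerfectMatching ∧ forcingNumber G M = k}

/-- `g` matches the vertices of `W` perfectly among themselves in `G`. -/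
def PMon (G : SimpleGraph V) (W : Finset V) (g : V → V) : Prop :=
  ∀ v ∈ W, g v ∈ W ∧ g (g v) = v ∧ G.Adj v (g v)

/-- perfect matchings as fixed point free involutions along edges -/
def IsPM (G : SimpleGraph V) (f : V → V) : Prop := ∀ v, f (f v) = v ∧ G.Adj v (f v)

/-- the subgraph of a perfect matching given as a function -/
def toSub {f : V → V} (hf : IsPM G f) : G.Subgraph where
  verts := Set.univ
  Adj v w := f v = w
  adj_sub := by
    intro v w h
    have := (hf v).2
    rwa [h] at this
  edge_vert := by intros; trivial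
  symm := ⟨by
    intro v w h
    show f w = v
    rw [← h, (hf v).1]⟩

lemma toSub_adj {f : V → V} (hf : IsPM G f) (v w : V) : (toSub hf).Adj v w ↔ f v = w := Iff.rfl

lemma toSub_isPM {f : V → V} (hf : IsPM G f) : (toSub hf).IsPerfectMatching := by
  rw [Subgraph.isPerfectMatching_iff]
  intro v
  exact ⟨f v, rfl, fun w h => ((toSub_adj hf v w).1 h).symm⟩

lemma exists_fun {M : G.Subgraph} (hM : M.IsPerfectMatching) :
    ∃ f : V → V, IsPM G f ∧ ∀ v w, M.Adj v w ↔ f v = w := by
  rw [Subgraph.isPerfectMatching_iff] at hM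
  choose f hf hf' using hM
  have h1 : ∀ v w, M.Adj v w ↔ f v = w := by
    intro v w
    constructor
    · intro h; exact (hf' v w h).symm
    · rintro rfl; exact hf v
  refine ⟨f, fun v => ⟨?_, (hf v).adj_sub⟩, h1⟩
  exact (h1 (f v) v).1 (hf v).symm

lemma mem_edge {M : G.Subgraph} {f : V → V} (h : ∀ v w, M.Adj v w ↔ f v = w) (v w : V) :
    s(v, w) ∈ M.edgeSet ↔ f v = w := by
  rw [Subgraph.mem_edgeSet]
  exact h v w

/-- replacing a perfect matching inside a closed set -/
lemma IsPM.replace [DecidableEq V] {f : V → V} (hf : IsPM G f) {W : Finset V} {g : V → V}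
    (hW : ∀ v ∈ W, f v ∈ W) (hg : PMon G W g) :
    IsPM G (fun v => if v ∈ W then g v else f v) := by
  intro v
  by_cases hv : v ∈ W
  · obtain ⟨h1, h2, h3⟩ := hg v hv
    simp only [hv, if_true, h1, h2, h3, and_self]
  · have h1 : f v ∉ W := by
      intro h
      have := hW _ h
      rw [(hf v).1] at this
      exact hv this
    simp only [hv, if_false, h1, (hf v).1, (hf v).2, and_self]

section card

variable [DecidableEq V]

lemma card_edges {f : V → V} (hf : IsPM G f) (U : Finset V) (hU : ∀ v ∈ U, f v ∈ U) :
    (U.image (fun v => s(v, f v))).card * 2 = U.card := by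
  classical
  have h := Finset.card_eq_sum_card_fiberwise (f := fun v => s(v, f v)) (s := U)
    (t := U.image (fun v => s(v, f v))) (fun v hv => Finset.mem_image_of_mem _ hv)
  rw [h, Finset.sum_const_nat (m := 2)]
  intro e he
  obtain ⟨v, hv, rfl⟩ := Finset.mem_image.1 he
  have : (U.filter (fun w => s(w, f w) = s(v, f v))) = {v, f v} := by
    ext w
    simp only [Finset.mem_filter, Finset.mem_insert, Finset.mem_singleton, Sym2.eq_iff]
    constructor
    · rintro ⟨_, h | h⟩
      · exact Or.inl h.1
      · exact Or.inr h.1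
    · rintro (h | h)
      · subst h; exact ⟨hv, Or.inl ⟨rfl, rfl⟩⟩
      · subst h; exact ⟨hU _ hv, Or.inr ⟨rfl, (hf v).1⟩⟩
  rw [this, Finset.card_pair]
  exact (hf v).2.ne

variable [Fintype V]

/-- If the perfect matching of `G[W]` is unique then the edges of `M` outside `W` force `M`. -/
lemma forcing_of_unique {M : G.Subgraph} (hM : M.IsPerfectMatching) {f : V → V}
    (hf : IsPM G f) (hMf : ∀ v w, M.Adj v w ↔ f v = w) (W : Finset V) (hW : ∀ v ∈ W, f v ∈ W)
    (huniq : ∀ g, PMon G W g → ∀ v ∈ W, g v = f v) :
    forcingNumber G M * 2 ≤ Fintype.card V - W.card := by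
  classical
  have hWc : ∀ v ∈ Wᶜ, f v ∈ Wᶜ := by
    intro v hv
    rw [Finset.mem_compl] at hv ⊢
    intro h
    have := hW _ h
    rw [(hf v).1] at this
    exact hv this
  have hc := card_edges hf Wᶜ hWc
  rw [Finset.card_compl] at hc
  have hforce : IsForcing G M (Wᶜ.image (fun v => s(v, f v))) := by
    refine ⟨?_, ?_⟩
    · intro e he
      obtain ⟨v, _, rfl⟩ := Finset.mem_image.1 (Finset.mem_coe.1 he)
      exact (mem_edge hMf _ _).2 rfl
    · intro M' hM' hS
      obtain ⟨f', hf', hMf'⟩ := exists_fun hM'
      have hout : ∀ v ∉ W, f' v = f v := by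
        intro v hv
        have : s(v, f v) ∈ M'.edgeSet :=
          hS (Finset.mem_coe.2 (Finset.mem_image_of_mem _ (Finset.mem_compl.2 hv)))
        exact (mem_edge hMf' _ _).1 this
      have hin : PMon G W f' := by
        intro v hv
        refine ⟨?_, (hf' v).1, (hf' v).2⟩
        by_contra h
        have h1 := hout _ h
        rw [(hf' v).1] at h1
        have h2 : f (f' v) ∈ Wᶜ := hWc _ (Finset.mem_compl.2 h)
        rw [← h1] at h2
        exact (Finset.mem_compl.1 h2) hv
      have hall : ∀ v, f' v = f v := by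
        intro v
        by_cases hv : v ∈ W
        · exact huniq f' hin v hv
        · exact hout v hv
      ext v w
      · constructor
        · intro _; exact hM.2 v
        · intro _; exact hM'.2 v
      · rw [hMf', hMf, hall]
  have hle : forcingNumber G M ≤ (Wᶜ.image (fun v => s(v, f v))).card :=
    Nat.sInf_le ⟨_, hforce, rfl⟩
  omega

/-- If every three edges of `M` can be rearranged, then `f(G, M) ≥ n - 2`. -/
lemma le_forcing {M : G.Subgraph} (hM : M.IsPerfectMatching) {f : V → V}
    (hf : IsPM G f) (hMf : ∀ v w, M.Adj v w ↔ f v = w) (k : ℕ)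
    (h : ∀ T : Finset (Sym2 V), (T : Set (Sym2 V)) ⊆ M.edgeSet → T.card = k + 1 →
      ∃ W : Finset V, (∀ v ∈ W, f v ∈ W ∧ s(v, f v) ∈ T) ∧
        ∃ g, PMon G W g ∧ ∃ v ∈ W, g v ≠ f v) :
    Fintype.card V ≤ 2 * (forcingNumber G M + k) := by
  classical
  have hc := card_edges hf Finset.univ (fun v _ => Finset.mem_univ _)
  rw [Finset.card_univ] at hc
  have hex : ∃ j, ∃ S : Finset (Sym2 V), IsForcing G M S ∧ S.card = j := by
    refine ⟨_, Finset.univ.image (fun v => s(v, f v)), ⟨?_, ?_⟩, rfl⟩
    · intro e he
      obtain ⟨v, _, rfl⟩ := Finset.mem_image.1 (Finset.mem_coe.1 he)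
      exact (mem_edge hMf _ _).2 rfl
    · intro M' hM' hS
      obtain ⟨f', hf', hMf'⟩ := exists_fun hM'
      have hall : ∀ v, f' v = f v := by
        intro v
        have : s(v, f v) ∈ M'.edgeSet :=
          hS (Finset.mem_coe.2 (Finset.mem_image_of_mem _ (Finset.mem_univ _)))
        exact (mem_edge hMf' _ _).1 this
      ext v w
      · constructor
        · intro _; exact hM.2 v
        · intro _; exact hM'.2 v
      · rw [hMf', hMf, hall]
  obtain ⟨S, hS, hcard⟩ := Nat.sInf_mem hex
  change S.card = forcingNumber G M at hcard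
  by_contra hlt
  push Not at hlt
  have hsub : S ⊆ Finset.univ.image (fun v => s(v, f v)) := by
    intro e he
    have := hS.1 (Finset.mem_coe.2 he)
    induction e using Sym2.ind with
    | _ x y =>
      rw [mem_edge hMf] at this
      rw [Finset.mem_image]
      exact ⟨x, Finset.mem_univ _, by rw [this]⟩
  have hdiff : k + 1 ≤ (Finset.univ.image (fun v => s(v, f v)) \ S).card := by
    rw [Finset.card_sdiff_of_subset hsub]
    omega
  obtain ⟨T, hT, hTc⟩ := Finset.exists_subset_card_eq hdiff
  have hTM : (T : Set (Sym2 V)) ⊆ M.edgeSet := by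
    intro e he
    have := hT (Finset.mem_coe.1 he)
    rw [Finset.mem_sdiff, Finset.mem_image] at this
    obtain ⟨⟨v, _, rfl⟩, _⟩ := this
    exact (mem_edge hMf _ _).2 rfl
  obtain ⟨W, hW, g, hg, v, hv, hne⟩ := h T hTM hTc
  have hf' := hf.replace (fun v hv => (hW v hv).1) hg
  have hM' := toSub_isPM hf'
  have hS' : (S : Set (Sym2 V)) ⊆ (toSub hf').edgeSet := by
    intro e he
    have h1 := hS.1 he
    induction e using Sym2.ind with
    | _ x y =>
      rw [mem_edge hMf] at h1
      rw [Subgraph.mem_edgeSet, toSub_adj]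
      have hx : x ∉ W := by
        intro hx
        have h2 := hT (hW x hx).2
        rw [Finset.mem_sdiff] at h2
        rw [h1] at h2
        exact h2.2 (Finset.mem_coe.1 he)
      simp only [hx, if_false, h1]
  have heq := hS.2 _ hM' hS'
  have : (toSub hf').Adj v (g v) := by
    rw [toSub_adj]
    simp only [hv, if_true]
  rw [heq, hMf] at this
  exact hne this.symm

end card

end Helper66.FN
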