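import Mathlib
import Pool.Agent.Helper66.FN.Basic

/-! Six vertex subgraphs with exactly one perfect matching. -/

namespace Helper66.FN

open SimpleGraph

universe u

variable {V : Type u} {G : SimpleGraph V}

/-- an alternating 4-cycle through the edges `aa'`, `bb'` -/
def AC4 (G : SimpleGraph V) (a a' b b' : V) : Prop :=
  (G.Adj a b ∧ G.Adj a' b') ∨ (G.Adj a b' ∧ G.Adj a' b)

/-- an alternating 6-cycle through the edges `aa'`, `bb'`, `cc'` -/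
def AC6 (G : SimpleGraph V) (a a' b b' c c' : V) : Prop :=
  (G.Adj a b ∧ G.Adj b' c ∧ G.Adj c' a') ∨ (G.Adj a b ∧ G.Adj b' c' ∧ G.Adj c a') ∨
  (G.Adj a b' ∧ G.Adj b c ∧ G.Adj c' a') ∨ (G.Adj a b' ∧ G.Adj b c' ∧ G.Adj c a') ∨
  (G.Adj a' b ∧ G.Adj b' c ∧ G.Adj c' a) ∨ (G.Adj a' b ∧ G.Adj b' c' ∧ G.Adj c a) ∨
  (G.Adj a' b' ∧ G.Adj b c ∧ G.Adj c' a) ∨ (G.Adj a' b' ∧ G.Adj b c' ∧ G.Adj c a)

/-- six different vertices -/
def Six (a a' b b' c c' : V) : Prop := [a, a', b, b', c, c'].Nodup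

/-- the edges `aa'`, `bb'`, `cc'` can be rearranged -/
def Rear (G : SimpleGraph V) (a a' b b' c c' : V) : Prop :=
  AC4 G a a' b b' ∨ AC4 G a a' c c' ∨ AC4 G b b' c c' ∨ AC6 G a a' b b' c c'

section

variable [DecidableEq V]

/-- the matching `p₁q₁`, `p₂q₂`, `p₃q₃` -/
def mk6 (p₁ q₁ p₂ q₂ p₃ q₃ : V) : V → V := fun v =>
  if v = p₁ then q₁ else if v = q₁ then p₁ else if v = p₂ then q₂ else if v = q₂ then p₂ else
  if v = p₃ then q₃ else if v = q₃ then p₃ else v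

lemma pmon_mk6 {p₁ q₁ p₂ q₂ p₃ q₃ : V} (h : Six p₁ q₁ p₂ q₂ p₃ q₃) (h1 : G.Adj p₁ q₁)
    (h2 : G.Adj p₂ q₂) (h3 : G.Adj p₃ q₃) :
    PMon G {p₁, q₁, p₂, q₂, p₃, q₃} (mk6 p₁ q₁ p₂ q₂ p₃ q₃) := by
  simp only [Six, List.nodup_cons, List.mem_cons, List.not_mem_nil, or_false, not_or,
    List.nodup_nil, and_true, not_false_eq_true] at h
  obtain ⟨⟨n12, n13, n14, n15, n16⟩, ⟨n23, n24, n25, n26⟩, ⟨n34, n35, n36⟩, ⟨n45, n46⟩, n56⟩ := h
  intro v hv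
  simp only [Finset.mem_insert, Finset.mem_singleton] at hv
  have e1 : mk6 p₁ q₁ p₂ q₂ p₃ q₃ p₁ = q₁ := by simp [mk6]
  have e2 : mk6 p₁ q₁ p₂ q₂ p₃ q₃ q₁ = p₁ := by simp [mk6, Ne.symm n12]
  have e3 : mk6 p₁ q₁ p₂ q₂ p₃ q₃ p₂ = q₂ := by simp [mk6, Ne.symm n13, Ne.symm n23]
  have e4 : mk6 p₁ q₁ p₂ q₂ p₃ q₃ q₂ = p₂ := by
    simp [mk6, Ne.symm n14, Ne.symm n24, Ne.symm n34]
  have e5 : mk6 p₁ q₁ p₂ q₂ p₃ q₃ p₃ = q₃ := by
    simp [mk6, Ne.symm n15, Ne.symm n25, Ne.symm n35, Ne.symm n45]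
  have e6 : mk6 p₁ q₁ p₂ q₂ p₃ q₃ q₃ = p₃ := by
    simp [mk6, Ne.symm n16, Ne.symm n26, Ne.symm n36, Ne.symm n46, Ne.symm n56]
  rcases hv with rfl | rfl | rfl | rfl | rfl | rfl
  · rw [e1, e2]; exact ⟨by simp, rfl, h1⟩
  · rw [e2, e1]; exact ⟨by simp, rfl, h1.symm⟩
  · rw [e3, e4]; exact ⟨by simp, rfl, h2⟩
  · rw [e4, e3]; exact ⟨by simp, rfl, h2.symm⟩
  · rw [e5, e6]; exact ⟨by simp, rfl, h3⟩
  · rw [e6, e5]; exact ⟨by simp, rfl, h3.symm⟩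

lemma mk6_fst (p₁ q₁ p₂ q₂ p₃ q₃ : V) : mk6 p₁ q₁ p₂ q₂ p₃ q₃ p₁ = q₁ := by simp [mk6]

/-- one rearrangement, as a statement on the set of six vertices -/
lemma rear_one {a a' b b' c c' p₁ q₁ p₂ q₂ p₃ q₃ : V}
    (hset : ({p₁, q₁, p₂, q₂, p₃, q₃} : Finset V) = {a, a', b, b', c, c'})
    (h : Six p₁ q₁ p₂ q₂ p₃ q₃) (h1 : G.Adj p₁ q₁)
    (h2 : G.Adj p₂ q₂) (h3 : G.Adj p₃ q₃) {f : V → V} (hf : f p₁ ≠ q₁) :
    ∃ g, PMon G {a, a', b, b', c, c'} g ∧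
      ∃ v ∈ ({a, a', b, b', c, c'} : Finset V), g v ≠ f v := by
  refine ⟨mk6 p₁ q₁ p₂ q₂ p₃ q₃, ?_, p₁, ?_, ?_⟩
  · rw [← hset]; exact pmon_mk6 h h1 h2 h3
  · rw [← hset]; simp
  · rw [mk6_fst]; exact hf.symm

lemma rear_pm {a a' b b' c c' : V} (h : Six a a' b b' c c') (ha : G.Adj a a') (hb : G.Adj b b')
    (hc : G.Adj c c') {f : V → V} (fa : f a = a') (fa' : f a' = a) (fb : f b = b')
    (hr : Rear G a a' b b' c c') :
    ∃ g, PMon G {a, a', b, b', c, c'} g ∧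
      ∃ v ∈ ({a, a', b, b', c, c'} : Finset V), g v ≠ f v := by
  simp only [Six, List.nodup_cons, List.mem_cons, List.not_mem_nil, or_false, not_or,
    List.nodup_nil, and_true, not_false_eq_true] at h
  obtain ⟨⟨n12, n13, n14, n15, n16⟩, ⟨n23, n24, n25, n26⟩, ⟨n34, n35, n36⟩, ⟨n45, n46⟩, n56⟩ := h
  rcases hr with (⟨x, y⟩ | ⟨x, y⟩) | (⟨x, y⟩ | ⟨x, y⟩) | (⟨x, y⟩ | ⟨x, y⟩) |
    (⟨x, y, z⟩ | ⟨x, y, z⟩ | ⟨x, y, z⟩ | ⟨x, y, z⟩ | ⟨x, y, z⟩ | ⟨x, y, z⟩ | ⟨x, y, z⟩ | ⟨x, y, z⟩)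
  · refine rear_one (p₁ := a) (q₁ := b) (p₂ := a') (q₂ := b') (p₃ := c) (q₃ := c') ?_ ?_ x y hc
      (by rw [fa]; exact n23)
    · ext v; simp only [Finset.mem_insert, Finset.mem_singleton]; tauto
    · simp [Six]; tauto
  · refine rear_one (p₁ := a) (q₁ := b') (p₂ := a') (q₂ := b) (p₃ := c) (q₃ := c') ?_ ?_ x y hc
      (by rw [fa]; exact n24)
    · ext v; simp only [Finset.mem_insert, Finset.mem_singleton]; tauto
    · simp [Six]; tauto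
  · refine rear_one (p₁ := a) (q₁ := c) (p₂ := a') (q₂ := c') (p₃ := b) (q₃ := b') ?_ ?_ x y hb
      (by rw [fa]; exact n25)
    · ext v; simp only [Finset.mem_insert, Finset.mem_singleton]; tauto
    · simp [Six]; tauto
  · refine rear_one (p₁ := a) (q₁ := c') (p₂ := a') (q₂ := c) (p₃ := b) (q₃ := b') ?_ ?_ x y hb
      (by rw [fa]; exact n26)
    · ext v; simp only [Finset.mem_insert, Finset.mem_singleton]; tauto
    · simp [Six]; tauto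
  · refine rear_one (p₁ := b) (q₁ := c) (p₂ := b') (q₂ := c') (p₃ := a) (q₃ := a') ?_ ?_ x y ha
      (by rw [fb]; exact n45)
    · ext v; simp only [Finset.mem_insert, Finset.mem_singleton]; tauto
    · simp [Six]; tauto
  · refine rear_one (p₁ := b) (q₁ := c') (p₂ := b') (q₂ := c) (p₃ := a) (q₃ := a') ?_ ?_ x y ha
      (by rw [fb]; exact n46)
    · ext v; simp only [Finset.mem_insert, Finset.mem_singleton]; tauto
    · simp [Six]; tauto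
  · refine rear_one (p₁ := a) (q₁ := b) (p₂ := b') (q₂ := c) (p₃ := c') (q₃ := a') ?_ ?_ x y z
      (by rw [fa]; exact n23)
    · ext v; simp only [Finset.mem_insert, Finset.mem_singleton]; tauto
    · simp [Six]; tauto
  · refine rear_one (p₁ := a) (q₁ := b) (p₂ := b') (q₂ := c') (p₃ := c) (q₃ := a') ?_ ?_ x y z
      (by rw [fa]; exact n23)
    · ext v; simp only [Finset.mem_insert, Finset.mem_singleton]; tauto
    · simp [Six]; tauto
  · refine rear_one (p₁ := a) (q₁ := b') (p₂ := b) (q₂ := c) (p₃ := c') (q₃ := a') ?_ ?_ x y z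
      (by rw [fa]; exact n24)
    · ext v; simp only [Finset.mem_insert, Finset.mem_singleton]; tauto
    · simp [Six]; tauto
  · refine rear_one (p₁ := a) (q₁ := b') (p₂ := b) (q₂ := c') (p₃ := c) (q₃ := a') ?_ ?_ x y z
      (by rw [fa]; exact n24)
    · ext v; simp only [Finset.mem_insert, Finset.mem_singleton]; tauto
    · simp [Six]; tauto
  · refine rear_one (p₁ := a') (q₁ := b) (p₂ := b') (q₂ := c) (p₃ := c') (q₃ := a) ?_ ?_ x y z
      (by rw [fa']; exact n13)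
    · ext v; simp only [Finset.mem_insert, Finset.mem_singleton]; tauto
    · simp [Six]; tauto
  · refine rear_one (p₁ := a') (q₁ := b) (p₂ := b') (q₂ := c') (p₃ := c) (q₃ := a) ?_ ?_ x y z
      (by rw [fa']; exact n13)
    · ext v; simp only [Finset.mem_insert, Finset.mem_singleton]; tauto
    · simp [Six]; tauto
  · refine rear_one (p₁ := a') (q₁ := b') (p₂ := b) (q₂ := c) (p₃ := c') (q₃ := a) ?_ ?_ x y z
      (by rw [fa']; exact n14)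
    · ext v; simp only [Finset.mem_insert, Finset.mem_singleton]; tauto
    · simp [Six]; tauto
  · refine rear_one (p₁ := a') (q₁ := b') (p₂ := b) (q₂ := c') (p₃ := c) (q₃ := a) ?_ ?_ x y z
      (by rw [fa']; exact n14)
    · ext v; simp only [Finset.mem_insert, Finset.mem_singleton]; tauto
    · simp [Six]; tauto

end

end Helper66.FN
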