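import Mathlib
import Pool.Agent.Helper66.FN.Six

/-! The two patterns of uniquely matchable six vertex graphs. -/

namespace Helper66.FN

open SimpleGraph

universe u

variable {V : Type u} {G : SimpleGraph V}

/-- `p` is not adjacent to `q`, `q'` -/
def Star (G : SimpleGraph V) (p q q' : V) : Prop := ¬ G.Adj p q ∧ ¬ G.Adj p q'

/-- first pattern -/
def F1 (G : SimpleGraph V) (_x₁ y₁ x₂ y₂ x₃ y₃ : V) : Prop :=
  Star G y₁ x₂ y₂ ∧ Star G y₁ x₃ y₃ ∧ Star G y₂ x₃ y₃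

/-- second pattern -/
def F2 (G : SimpleGraph V) (x₁ y₁ x₂ y₂ x₃ y₃ : V) : Prop :=
  Star G y₁ x₂ y₂ ∧ Star G x₁ x₃ y₃ ∧ Star G x₂ x₃ y₃ ∧ Star G y₂ x₃ y₃

/-- three disjoint edges -/
def Tri (G : SimpleGraph V) (a a' b b' c c' : V) : Prop :=
  Six a a' b b' c c' ∧ G.Adj a a' ∧ G.Adj b b' ∧ G.Adj c c'

/-- a uniquely matchable six vertex subgraph in one of the two patterns -/
def Bad (G : SimpleGraph V) : Prop :=
  ∃ x₁ y₁ x₂ y₂ x₃ y₃ : V, Tri G x₁ y₁ x₂ y₂ x₃ y₃ ∧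
    (F1 G x₁ y₁ x₂ y₂ x₃ y₃ ∨ F2 G x₁ y₁ x₂ y₂ x₃ y₃)

/-- three disjoint edges that cannot be rearranged -/
def Hyp (G : SimpleGraph V) (a a' b b' c c' : V) : Prop :=
  Tri G a a' b b' c c' ∧ ¬ Rear G a a' b b' c c'

lemma Six.swap12 {a a' b b' c c' : V} (h : Six a a' b b' c c') : Six b b' a a' c c' := by
  simp only [Six, List.nodup_cons, List.mem_cons, List.not_mem_nil, or_false, not_or,
    List.nodup_nil, and_true, not_false_eq_true] at *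
  obtain ⟨⟨n12, n13, n14, n15, n16⟩, ⟨n23, n24, n25, n26⟩, ⟨n34, n35, n36⟩, ⟨n45, n46⟩, n56⟩ := h
  exact ⟨⟨n34, Ne.symm n13, Ne.symm n23, n35, n36⟩, ⟨Ne.symm n14, Ne.symm n24, n45, n46⟩,
    ⟨n12, n15, n16⟩, ⟨n25, n26⟩, n56⟩

lemma Six.swap23 {a a' b b' c c' : V} (h : Six a a' b b' c c') : Six a a' c c' b b' := by
  simp only [Six, List.nodup_cons, List.mem_cons, List.not_mem_nil, or_false, not_or,
    List.nodup_nil, and_true, not_false_eq_true] at *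
  obtain ⟨⟨n12, n13, n14, n15, n16⟩, ⟨n23, n24, n25, n26⟩, ⟨n34, n35, n36⟩, ⟨n45, n46⟩, n56⟩ := h
  exact ⟨⟨n12, n15, n16, n13, n14⟩, ⟨n25, n26, n23, n24⟩, ⟨n56, Ne.symm n35, Ne.symm n45⟩,
    ⟨Ne.symm n36, Ne.symm n46⟩, n34⟩

lemma Six.flip1 {a a' b b' c c' : V} (h : Six a a' b b' c c') : Six a' a b b' c c' := by
  simp only [Six, List.nodup_cons, List.mem_cons, List.not_mem_nil, or_false, not_or,
    List.nodup_nil, and_true, not_false_eq_true] at *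
  obtain ⟨⟨n12, n13, n14, n15, n16⟩, ⟨n23, n24, n25, n26⟩, ⟨n34, n35, n36⟩, ⟨n45, n46⟩, n56⟩ := h
  exact ⟨⟨Ne.symm n12, n23, n24, n25, n26⟩, ⟨n13, n14, n15, n16⟩, ⟨n34, n35, n36⟩,
    ⟨n45, n46⟩, n56⟩

lemma Rear.swap12 {a a' b b' c c' : V} (h : Rear G b b' a a' c c') : Rear G a a' b b' c c' := by
  rcases h with (⟨x, y⟩ | ⟨x, y⟩) | (⟨x, y⟩ | ⟨x, y⟩) | (⟨x, y⟩ | ⟨x, y⟩) |
    (⟨x, y, z⟩ | ⟨x, y, z⟩ | ⟨x, y, z⟩ | ⟨x, y, z⟩ | ⟨x, y, z⟩ | ⟨x, y, z⟩ | ⟨x, y, z⟩ | ⟨x, y, z⟩)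
  · simp [Rear, AC4, x.symm, y.symm]
  · simp [Rear, AC4, x.symm, y.symm]
  · simp [Rear, AC4, x, y]
  · simp [Rear, AC4, x, y]
  · simp [Rear, AC4, x, y]
  · simp [Rear, AC4, x, y]
  all_goals simp [Rear, AC6, x.symm, y.symm, z.symm]

lemma Rear.swap23 {a a' b b' c c' : V} (h : Rear G a a' c c' b b') : Rear G a a' b b' c c' := by
  rcases h with (⟨x, y⟩ | ⟨x, y⟩) | (⟨x, y⟩ | ⟨x, y⟩) | (⟨x, y⟩ | ⟨x, y⟩) |
    (⟨x, y, z⟩ | ⟨x, y, z⟩ | ⟨x, y, z⟩ | ⟨x, y, z⟩ | ⟨x, y, z⟩ | ⟨x, y, z⟩ | ⟨x, y, z⟩ | ⟨x, y, z⟩)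
  · simp [Rear, AC4, x, y]
  · simp [Rear, AC4, x, y]
  · simp [Rear, AC4, x, y]
  · simp [Rear, AC4, x, y]
  · simp [Rear, AC4, x.symm, y.symm]
  · simp [Rear, AC4, x.symm, y.symm]
  all_goals simp [Rear, AC6, x.symm, y.symm, z.symm]

lemma Rear.flip1 {a a' b b' c c' : V} (h : Rear G a' a b b' c c') : Rear G a a' b b' c c' := by
  rcases h with (⟨x, y⟩ | ⟨x, y⟩) | (⟨x, y⟩ | ⟨x, y⟩) | (⟨x, y⟩ | ⟨x, y⟩) |
    (⟨x, y, z⟩ | ⟨x, y, z⟩ | ⟨x, y, z⟩ | ⟨x, y, z⟩ | ⟨x, y, z⟩ | ⟨x, y, z⟩ | ⟨x, y, z⟩ | ⟨x, y, z⟩)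
  · simp [Rear, AC4, x, y]
  · simp [Rear, AC4, x, y]
  · simp [Rear, AC4, x, y]
  · simp [Rear, AC4, x, y]
  · simp [Rear, AC4, x, y]
  · simp [Rear, AC4, x, y]
  all_goals simp [Rear, AC6, x, y, z]

lemma Hyp.swap12 {a a' b b' c c' : V} (h : Hyp G a a' b b' c c') : Hyp G b b' a a' c c' := by
  obtain ⟨⟨h1, h2, h3, h4⟩, h5⟩ := h
  exact ⟨⟨h1.swap12, h3, h2, h4⟩, fun h => h5 h.swap12⟩

lemma Hyp.swap23 {a a' b b' c c' : V} (h : Hyp G a a' b b' c c') : Hyp G a a' c c' b b' := by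
  obtain ⟨⟨h1, h2, h3, h4⟩, h5⟩ := h
  exact ⟨⟨h1.swap23, h2, h4, h3⟩, fun h => h5 h.swap23⟩

lemma Hyp.flip1 {a a' b b' c c' : V} (h : Hyp G a a' b b' c c') : Hyp G a' a b b' c c' := by
  obtain ⟨⟨h1, h2, h3, h4⟩, h5⟩ := h
  exact ⟨⟨h1.flip1, h2.symm, h3, h4⟩, fun h => h5 h.flip1⟩

lemma Hyp.flip2 {a a' b b' c c' : V} (h : Hyp G a a' b b' c c') : Hyp G a a' b' b c c' :=
  h.swap12.flip1.swap12

lemma Hyp.flip3 {a a' b b' c c' : V} (h : Hyp G a a' b b' c c') : Hyp G a a' b b' c' c :=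
  h.swap23.flip2.swap23

/-- transitive case with fixed stars -/
lemma bad_trans {a a' b b' c c' : V} (h : Hyp G a a' b b' c c') (s1 : Star G a b b')
    (s2 : Star G a c c' ∨ Star G a' c c') (s3 : Star G b c c') : Bad G := by
  rcases s2 with s2 | s2
  · refine ⟨a', a, b', b, c', c, ?_, Or.inl ⟨⟨s1.2, s1.1⟩, ⟨s2.2, s2.1⟩, ⟨s3.2, s3.1⟩⟩⟩
    exact h.flip1.flip2.flip3.1
  · -- `a → bb'`, `a' → cc'`, `b → cc'`
    by_cases hba : G.Adj b a'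
    swap
    · -- `b → aa'`, `b → cc'`, `a' → cc'`
      refine ⟨b', b, a, a', c', c, ?_, Or.inl ⟨⟨?_, hba⟩, ⟨s3.2, s3.1⟩, ⟨s2.2, s2.1⟩⟩⟩
      · exact h.swap12.flip1.flip3.1
      · intro h'; exact s1.1 h'.symm
    · have r1 := h.2
      simp only [Rear, AC6, not_or, not_and] at r1
      obtain ⟨-, -, -, -, -, -, -, r5, r6, -, -⟩ := r1
      -- r5 : a'b → b'c → ¬ c'a ; r6 : a'b → b'c' → ¬ ca
      have r5' : ¬ G.Adj b' c ∨ ¬ G.Adj c' a := by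
        by_contra hh
        push Not at hh
        exact r5 hba.symm hh.1 hh.2
      have r6' : ¬ G.Adj b' c' ∨ ¬ G.Adj c a := by
        by_contra hh
        push Not at hh
        exact r6 hba.symm hh.1 hh.2
      rcases r5' with u1 | u1 <;> rcases r6' with u2 | u2
      · -- b' → cc' : second pattern
        refine ⟨a', a, b', b, c', c, h.flip1.flip2.flip3.1, Or.inr ⟨⟨s1.2, s1.1⟩, ⟨s2.2, s2.1⟩,
          ⟨u2, u1⟩, ⟨s3.2, s3.1⟩⟩⟩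
      · -- b'c, ca missing: c → aa', bb'
        refine ⟨c', c, a', a, b', b, ?_, Or.inl ⟨⟨?_, u2⟩, ⟨?_, ?_⟩, ⟨s1.2, s1.1⟩⟩⟩
        · exact h.swap23.swap12.flip1.flip2.flip3.1
        · intro h'; exact s2.1 h'.symm
        · intro h'; exact u1 h'.symm
        · intro h'; exact s3.1 h'.symm
      · -- c'a, b'c' missing : c' → aa', bb'
        refine ⟨c, c', a', a, b', b, ?_, Or.inl ⟨⟨?_, u1⟩, ⟨?_, ?_⟩, ⟨s1.2, s1.1⟩⟩⟩
        · exact h.swap23.swap12.flip2.flip3.1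
        · intro h'; exact s2.2 h'.symm
        · intro h'; exact u2 h'.symm
        · intro h'; exact s3.2 h'.symm
      · -- c'a, ca missing : a → cc'
        refine ⟨a', a, b', b, c', c, h.flip1.flip2.flip3.1, Or.inl ⟨⟨s1.2, s1.1⟩, ⟨?_, ?_⟩,
          ⟨s3.2, s3.1⟩⟩⟩
        · intro h'; exact u1 h'.symm
        · intro h'; exact u2 h'.symm

/-- cyclic case with fixed stars -/
lemma bad_cyc {a a' b b' c c' : V} (h : Hyp G a a' b b' c c') (s1 : Star G a b b')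
    (s2 : Star G b c c') (s3 : Star G c a a') : Bad G := by
  -- `a → bb'`, `b → cc'`, `c → aa'`; the cycle a c' b' | a' b ... must be broken
  have r := h.2
  simp only [Rear, AC6, not_or, not_and] at r
  -- cycle : a' b , b' c , c' a
  obtain ⟨-, -, -, -, -, -, -, r5, -, -, -⟩ := r
  have : ¬ G.Adj a' b ∨ ¬ G.Adj b' c ∨ ¬ G.Adj c' a := by
    by_contra hh
    push Not at hh
    exact r5 hh.1 hh.2.1 hh.2.2
  rcases this with u | u | u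
  · -- b → aa', b → cc', c → aa'
    refine ⟨b', b, c', c, a', a, ?_, Or.inl ⟨⟨s2.2, s2.1⟩, ⟨?_, ?_⟩, ⟨s3.2, s3.1⟩⟩⟩
    · exact h.swap12.swap23.flip1.flip2.flip3.1
    · intro h'; exact u h'.symm
    · intro h'; exact s1.1 h'.symm
  · -- c → aa', c → bb', a → bb'
    refine ⟨c', c, a', a, b', b, ?_, Or.inl ⟨⟨s3.2, s3.1⟩, ⟨?_, ?_⟩, ⟨s1.2, s1.1⟩⟩⟩
    · exact h.swap23.swap12.flip1.flip2.flip3.1
    · intro h'; exact u h'.symm
    · intro h'; exact s2.1 h'.symm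
  · -- a → bb', a → cc', b → cc'
    refine ⟨a', a, b', b, c', c, h.flip1.flip2.flip3.1, Or.inl ⟨⟨s1.2, s1.1⟩, ⟨?_, ?_⟩,
      ⟨s2.2, s2.1⟩⟩⟩
    · intro h'; exact u h'.symm
    · intro h'; exact s3.1 h'.symm

/-- `e → e'` -/
def Ar (G : SimpleGraph V) (a a' b b' : V) : Prop := Star G a b b' ∨ Star G a' b b'

lemma Star.comm {p q q' : V} (h : Star G p q q') : Star G p q' q := ⟨h.2, h.1⟩

lemma bad_trans' {a a' b b' c c' : V} (h : Hyp G a a' b b' c c') (s1 : Ar G a a' b b')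
    (s2 : Ar G a a' c c') (s3 : Ar G b b' c c') : Bad G := by
  rcases s1 with s1 | s1 <;> rcases s3 with s3 | s3
  · exact bad_trans h s1 s2 s3
  · exact bad_trans h.flip2 s1.comm s2 s3
  · exact bad_trans h.flip1 s1 s2.symm s3
  · exact bad_trans h.flip1.flip2 s1.comm s2.symm s3

lemma bad_cyc' {a a' b b' c c' : V} (h : Hyp G a a' b b' c c') (s1 : Ar G a a' b b')
    (s2 : Ar G b b' c c') (s3 : Ar G c c' a a') : Bad G := by
  rcases s1 with s1 | s1 <;> rcases s2 with s2 | s2 <;> rcases s3 with s3 | s3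
  · exact bad_cyc h s1 s2 s3
  · exact bad_cyc h.flip3 s1 s2.comm s3
  · exact bad_cyc h.flip2 s1.comm s2 s3
  · exact bad_cyc h.flip2.flip3 s1.comm s2.comm s3
  · exact bad_cyc h.flip1 s1 s2 s3.comm
  · exact bad_cyc h.flip1.flip3 s1 s2.comm s3.comm
  · exact bad_cyc h.flip1.flip2 s1.comm s2 s3.comm
  · exact bad_cyc h.flip1.flip2.flip3 s1.comm s2.comm s3.comm

lemma ar_or {a a' b b' : V} (h : ¬ AC4 G a a' b b') : Ar G a a' b b' ∨ Ar G b b' a a' := by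
  simp only [AC4, Ar, Star, G.adj_comm b a, G.adj_comm b' a', G.adj_comm b a',
    G.adj_comm b' a] at *
  tauto

/-- Every triple of disjoint edges that cannot be rearranged contains one of the patterns. -/
theorem bad_of_hyp {a a' b b' c c' : V} (h : Hyp G a a' b b' c c') : Bad G := by
  have h5 := h.2
  simp only [Rear, not_or] at h5
  obtain ⟨h1, h2, h3, -⟩ := h5
  rcases ar_or h1 with s1 | s1 <;> rcases ar_or h2 with s2 | s2 <;> rcases ar_or h3 with s3 | s3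
  · exact bad_trans' h s1 s2 s3
  · exact bad_trans' h.swap23 s2 s1 s3
  · exact bad_cyc' h s1 s3 s2
  · exact bad_trans' h.swap23.swap12 s2 s3 s1
  · exact bad_trans' h.swap12 s1 s3 s2
  · exact bad_cyc' h.swap12 s1 s2 s3
  · exact bad_trans' h.swap12.swap23 s3 s1 s2
  · exact bad_trans' h.swap23.swap12.swap23 s3 s2 s1

end Helper66.FN
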