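import Mathlib
import Pool.Agent.Helper66.FN.Pattern

/-! Minimum forcing number `n - 2` for `3`-extendable graphs. -/

namespace Helper66.FN

open SimpleGraph

universe u

variable {V : Type u} {G : SimpleGraph V}

/-- in a pattern the perfect matching of the six vertices is unique -/
lemma unique_of_pattern [DecidableEq V] {x₁ y₁ x₂ y₂ x₃ y₃ : V}
    (hT : Tri G x₁ y₁ x₂ y₂ x₃ y₃)
    (hP : F1 G x₁ y₁ x₂ y₂ x₃ y₃ ∨ F2 G x₁ y₁ x₂ y₂ x₃ y₃) {f : V → V}
    (fx₁ : f x₁ = y₁) (fy₁ : f y₁ = x₁) (fx₂ : f x₂ = y₂) (fy₂ : f y₂ = x₂)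
    (fx₃ : f x₃ = y₃) (fy₃ : f y₃ = x₃) (g : V → V)
    (hg : PMon G {x₁, y₁, x₂, y₂, x₃, y₃} g) :
    ∀ v ∈ ({x₁, y₁, x₂, y₂, x₃, y₃} : Finset V), g v = f v := by
  obtain ⟨h, h1, h2, h3⟩ := hT
  simp only [Six, List.nodup_cons, List.mem_cons, List.not_mem_nil, or_false, not_or,
    List.nodup_nil, and_true, not_false_eq_true] at h
  obtain ⟨⟨n12, n13, n14, n15, n16⟩, ⟨n23, n24, n25, n26⟩, ⟨n34, n35, n36⟩, ⟨n45, n46⟩, n56⟩ := h
  have key : ∀ v ∈ ({x₁, y₁, x₂, y₂, x₃, y₃} : Finset V),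
      (g v = x₁ ∨ g v = y₁ ∨ g v = x₂ ∨ g v = y₂ ∨ g v = x₃ ∨ g v = y₃) ∧ g (g v) = v ∧
        G.Adj v (g v) := by
    intro v hv
    obtain ⟨a, b, c⟩ := hg v hv
    refine ⟨?_, b, c⟩
    simpa only [Finset.mem_insert, Finset.mem_singleton] using a
  have kx₁ := key x₁ (by simp)
  have ky₁ := key y₁ (by simp)
  have kx₂ := key x₂ (by simp)
  have ky₂ := key y₂ (by simp)
  have kx₃ := key x₃ (by simp)
  have ky₃ := key y₃ (by simp)
  suffices hh : g y₁ = x₁ ∧ g y₂ = x₂ ∧ g y₃ = x₃ by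
    obtain ⟨e1, e2, e3⟩ := hh
    have e1' : g x₁ = y₁ := by rw [← e1]; exact ky₁.2.1
    have e2' : g x₂ = y₂ := by rw [← e2]; exact ky₂.2.1
    have e3' : g x₃ = y₃ := by rw [← e3]; exact ky₃.2.1
    intro v hv
    simp only [Finset.mem_insert, Finset.mem_singleton] at hv
    rcases hv with rfl | rfl | rfl | rfl | rfl | rfl
    · rw [e1', fx₁]
    · rw [e1, fy₁]
    · rw [e2', fx₂]
    · rw [e2, fy₂]
    · rw [e3', fx₃]
    · rw [e3, fy₃]
  rcases hP with ⟨s1, s2, s3⟩ | ⟨s1, s2, s3, s4⟩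
  · -- first pattern
    have e1 : g y₁ = x₁ := by
      obtain ⟨c, -, d⟩ := ky₁
      rcases c with c | c | c | c | c | c
      · exact c
      · rw [c] at d; exact absurd d (G.irrefl)
      · rw [c] at d; exact absurd d s1.1
      · rw [c] at d; exact absurd d s1.2
      · rw [c] at d; exact absurd d s2.1
      · rw [c] at d; exact absurd d s2.2
    have e1' : g x₁ = y₁ := by rw [← e1]; exact ky₁.2.1
    have e2 : g y₂ = x₂ := by
      obtain ⟨c, b, d⟩ := ky₂
      rcases c with c | c | c | c | c | c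
      · rw [c, e1'] at b; exact absurd b n24
      · rw [c, e1] at b; exact absurd b n14
      · exact c
      · rw [c] at d; exact absurd d (G.irrefl)
      · rw [c] at d; exact absurd d s3.1
      · rw [c] at d; exact absurd d s3.2
    have e2' : g x₂ = y₂ := by rw [← e2]; exact ky₂.2.1
    have e3 : g y₃ = x₃ := by
      obtain ⟨c, b, d⟩ := ky₃
      rcases c with c | c | c | c | c | c
      · rw [c, e1'] at b; exact absurd b n26
      · rw [c, e1] at b; exact absurd b n16
      · rw [c, e2'] at b; exact absurd b n46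
      · rw [c, e2] at b; exact absurd b n36
      · exact c
      · rw [c] at d; exact absurd d (G.irrefl)
    exact ⟨e1, e2, e3⟩
  · -- second pattern
    have e1 : g y₁ = x₁ := by
      obtain ⟨c, b, d⟩ := ky₁
      rcases c with c | c | c | c | c | c
      · exact c
      · rw [c] at d; exact absurd d (G.irrefl)
      · rw [c] at d; exact absurd d s1.1
      · rw [c] at d; exact absurd d s1.2
      · -- g y₁ = x₃, look at y₃
        exfalso
        rw [c] at b
        obtain ⟨c', b', d'⟩ := ky₃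
        rcases c' with c' | c' | c' | c' | c' | c'
        · rw [c'] at d'; exact s2.2 d'.symm
        · rw [c', c] at b'; exact n56 b'
        · rw [c'] at d'; exact s3.2 d'.symm
        · rw [c'] at d'; exact s4.2 d'.symm
        · rw [c', b] at b'; exact n26 b'
        · rw [c'] at d'; exact G.irrefl d'
      · exfalso
        rw [c] at b
        obtain ⟨c', b', d'⟩ := kx₃
        rcases c' with c' | c' | c' | c' | c' | c'
        · rw [c'] at d'; exact s2.1 d'.symm
        · rw [c', c] at b'; exact n56 b'.symm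
        · rw [c'] at d'; exact s3.1 d'.symm
        · rw [c'] at d'; exact s4.1 d'.symm
        · rw [c'] at d'; exact G.irrefl d'
        · rw [c', b] at b'; exact n25 b'
    have e1' : g x₁ = y₁ := by rw [← e1]; exact ky₁.2.1
    have e2 : g y₂ = x₂ := by
      obtain ⟨c, b, d⟩ := ky₂
      rcases c with c | c | c | c | c | c
      · rw [c, e1'] at b; exact absurd b n24
      · rw [c, e1] at b; exact absurd b n14
      · exact c
      · rw [c] at d; exact absurd d (G.irrefl)
      · rw [c] at d; exact absurd d s4.1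
      · rw [c] at d; exact absurd d s4.2
    have e2' : g x₂ = y₂ := by rw [← e2]; exact ky₂.2.1
    have e3 : g y₃ = x₃ := by
      obtain ⟨c, b, d⟩ := ky₃
      rcases c with c | c | c | c | c | c
      · rw [c, e1'] at b; exact absurd b n26
      · rw [c, e1] at b; exact absurd b n16
      · rw [c, e2'] at b; exact absurd b n46
      · rw [c, e2] at b; exact absurd b n36
      · exact c
      · rw [c] at d; exact absurd d (G.irrefl)
    exact ⟨e1, e2, e3⟩

/-- no induced `K₄` minus an edge: if `ab` is an edge, `c ≠ d` are common neighbours of `a`, `b`,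
then `c`, `d` are adjacent -/
def DiamondFree {U : Type u} (Q : SimpleGraph U) : Prop :=
  ∀ a b c d : U, Q.Adj a b → Q.Adj a c → Q.Adj a d → Q.Adj b c → Q.Adj b d → c ≠ d → Q.Adj c d

/-- no induced `K_{3,3}` minus an edge: there are no independent sets `{a, b, c}`, `{a', b', c'}`
(`b ≠ c`, `b' ≠ c'`) such that all pairs between them are adjacent except `a`, `a'` -/
def K33mFree {U : Type u} (Q : SimpleGraph U) : Prop :=
  ∀ a b c a' b' c' : U, b ≠ c → b' ≠ c' → ¬ Q.Adj a b → ¬ Q.Adj a c → ¬ Q.Adj b c →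
    ¬ Q.Adj a' b' → ¬ Q.Adj a' c' → ¬ Q.Adj b' c' → Q.Adj a b' → Q.Adj a c' →
    Q.Adj b a' → Q.Adj b b' → Q.Adj b c' → Q.Adj c a' → Q.Adj c b' → Q.Adj c c' → Q.Adj a a'

/-- The complement of `G` is obtained from a graph `Q` without induced `K₄ - e` and `K_{3,3} - e`
by replacing vertices by cliques. -/
def Structured {V : Type u} (G : SimpleGraph V) : Prop :=
  ∃ (U : Type u) (Q : SimpleGraph U) (φ : V → U), DiamondFree Q ∧ K33mFree Q ∧
    ∀ x y : V, x ≠ y → (¬ G.Adj x y ↔ φ x = φ y ∨ Q.Adj (φ x) (φ y))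

/-- A structured graph has no pattern. -/
theorem Structured.not_bad (h : Structured G) : ¬ Bad G := by
  obtain ⟨U, Q, φ, hD, hK, hφ⟩ := h
  rintro ⟨x₁, y₁, x₂, y₂, x₃, y₃, ⟨h6, h1, h2, h3⟩, hP⟩
  simp only [Six, List.nodup_cons, List.mem_cons, List.not_mem_nil, or_false, not_or,
    List.nodup_nil, and_true, not_false_eq_true] at h6
  obtain ⟨⟨n12, n13, n14, n15, n16⟩, ⟨n23, n24, n25, n26⟩, ⟨n34, n35, n36⟩, ⟨n45, n46⟩, n56⟩ := h6
  -- adjacent in `G`: different and non adjacent classes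
  have adj : ∀ {x y : V}, G.Adj x y → φ x ≠ φ y ∧ ¬ Q.Adj (φ x) (φ y) := by
    intro x y hxy
    have := (hφ x y hxy.ne).not.1 (not_not.2 hxy)
    exact not_or.1 this
  -- if `u` is `H`-adjacent to both ends of a `G`-edge then both classes are adjacent to that of `u`
  have star : ∀ {u p q : V}, u ≠ p → u ≠ q → G.Adj p q → ¬ G.Adj u p → ¬ G.Adj u q →
      Q.Adj (φ u) (φ p) ∧ Q.Adj (φ u) (φ q) := by
    intro u p q nup nuq hpq hup huq
    have a1 := (hφ u p nup).1 hup
    have a2 := (hφ u q nuq).1 huq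
    have a3 := adj hpq
    rcases a1 with a1 | a1
    · rcases a2 with a2 | a2
      · exact absurd (a1.symm.trans a2) a3.1
      · rw [a1] at a2; exact absurd a2 a3.2
    · rcases a2 with a2 | a2
      · rw [a2] at a1; exact absurd a1.symm a3.2
      · exact ⟨a1, a2⟩
  rcases hP with ⟨s1, s2, s3⟩ | ⟨s1, s2, s3, s4⟩
  · have b1 := star n23 n24 h2 s1.1 s1.2
    have b2 := star n25 n26 h3 s2.1 s2.2
    have b3 := star n45 n46 h3 s3.1 s3.2
    exact (adj h3).2 (hD _ _ _ _ b1.2 b2.1 b2.2 b3.1 b3.2 (adj h3).1)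
  · -- parts `{y₁, x₃, y₃}` and `{x₁, x₂, y₂}`
    have b1 := star n23 n24 h2 s1.1 s1.2
    have b2 := star n15 n16 h3 s2.1 s2.2
    have b3 := star n35 n36 h3 s3.1 s3.2
    have b4 := star n45 n46 h3 s4.1 s4.2
    have c1 : ¬ Q.Adj (φ y₁) (φ x₃) := fun h =>
      (adj h2).2 (hD _ _ _ _ h b1.1 b1.2 b3.1.symm b4.1.symm (adj h2).1)
    have c2 : ¬ Q.Adj (φ y₁) (φ y₃) := fun h =>
      (adj h2).2 (hD _ _ _ _ h b1.1 b1.2 b3.2.symm b4.2.symm (adj h2).1)
    have c3 : ¬ Q.Adj (φ x₁) (φ x₂) := fun h =>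
      (adj h3).2 (hD _ _ _ _ h b2.1 b2.2 b3.1 b3.2 (adj h3).1)
    have c4 : ¬ Q.Adj (φ x₁) (φ y₂) := fun h =>
      (adj h3).2 (hD _ _ _ _ h b2.1 b2.2 b4.1 b4.2 (adj h3).1)
    refine (adj h1.symm).2 (hK (φ y₁) (φ x₃) (φ y₃) (φ x₁) (φ x₂) (φ y₂) (adj h3).1 (adj h2).1
      c1 c2 (adj h3).2 c3 c4 (adj h2).2 b1.1 b1.2 b2.1.symm b3.1.symm b4.1.symm b2.2.symm
      b3.2.symm b4.2.symm)

/-- If `G` has no isolated vertex and no pattern, it is structured. -/
theorem structured_of_not_bad (hiso : ∀ v, ∃ w, G.Adj v w) (hB : ¬ Bad G) : Structured G := by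
  classical
  -- true twins of the complement
  let tw : V → V → Prop := fun x y => x = y ∨ (¬ G.Adj x y ∧ ∀ z, z ≠ x → z ≠ y →
    (G.Adj x z ↔ G.Adj y z))
  have tw_symm : ∀ {x y}, tw x y → tw y x := by
    rintro x y (h | ⟨h1, h2⟩)
    · exact Or.inl h.symm
    · exact Or.inr ⟨fun h => h1 h.symm, fun z hz1 hz2 => (h2 z hz2 hz1).symm⟩
  have tw_trans : ∀ {x y z}, tw x y → tw y z → tw x z := by
    rintro x y z (rfl | ⟨h1, h2⟩) (rfl | ⟨h3, h4⟩)
    · exact Or.inl rfl
    · exact Or.inr ⟨h3, h4⟩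
    · exact Or.inr ⟨h1, h2⟩
    · by_cases hxz : x = z
      · exact Or.inl hxz
      by_cases hxy : x = y
      · subst hxy; exact Or.inr ⟨h3, h4⟩
      by_cases hyz : y = z
      · subst hyz; exact Or.inr ⟨h1, h2⟩
      refine Or.inr ⟨?_, ?_⟩
      · intro h
        exact h3 ((h2 z (Ne.symm hxz) (Ne.symm hyz)).1 h)
      · intro w hw1 hw2
        by_cases hwy : w = y
        · subst hwy
          exact ⟨fun h => absurd h h1, fun h => absurd h.symm h3⟩
        · exact (h2 w hw1 hwy).trans (h4 w hwy hw2)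
  let st : Setoid V := ⟨tw, ⟨fun x => Or.inl rfl, tw_symm, tw_trans⟩⟩
  -- nonadjacency passes to twins
  have tw_left : ∀ {x x' y}, tw x x' → ¬ tw x y → ¬ G.Adj x y → ¬ G.Adj x' y := by
    rintro x x' y (rfl | ⟨h1, h2⟩) hn h
    · exact h
    · by_cases hy : y = x'
      · subst hy; exact G.irrefl
      · have hyx : y ≠ x := by rintro rfl; exact hn (Or.inl rfl)
        intro h'
        exact h ((h2 y hyx hy).2 h')
  let Q : SimpleGraph (Quotient st) :=
    { Adj := fun a b => Quotient.liftOn₂ a b (fun x y => ¬ tw x y ∧ ¬ G.Adj x y) (by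
        intro x y x' y' hx hy
        have hx : tw x x' := hx
        have hy : tw y y' := hy
        have aux : ∀ {x y x' y'}, tw x x' → tw y y' → (¬ tw x y ∧ ¬ G.Adj x y) →
            (¬ tw x' y' ∧ ¬ G.Adj x' y') := by
          intro x y x' y' hx hy h
          have n1 : ¬ tw x' y := fun h' => h.1 (tw_trans hx h')
          have n2 : ¬ tw x' y' := fun h' => n1 (tw_trans h' (tw_symm hy))
          refine ⟨n2, ?_⟩
          have a1 := tw_left hx h.1 h.2
          have a2 := tw_left hy (fun h' => n1 (tw_symm h')) (fun h' => a1 h'.symm)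
          exact fun h' => a2 h'.symm
        exact propext ⟨aux hx hy, aux (tw_symm hx) (tw_symm hy)⟩)
      symm := ⟨by
        intro a b
        induction a using Quotient.ind
        induction b using Quotient.ind
        intro h
        exact ⟨fun h' => h.1 (tw_symm h'), fun h' => h.2 h'.symm⟩⟩
      loopless := ⟨by
        intro a
        induction a using Quotient.ind
        intro h
        exact h.1 (Or.inl rfl)⟩ }
  have hQ : ∀ x y : V, Q.Adj (Quotient.mk st x) (Quotient.mk st y) ↔ ¬ tw x y ∧ ¬ G.Adj x y :=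
    fun x y => Iff.rfl
  have hE : ∀ x y : V, Quotient.mk st x = Quotient.mk st y ↔ tw x y :=
    fun x y => Quotient.eq (r := st)
  -- facts on `Q`-adjacency
  have q_ne : ∀ {x y : V}, Q.Adj (Quotient.mk st x) (Quotient.mk st y) → x ≠ y := by
    rintro x y h rfl
    exact ((hQ _ _).1 h).1 (Or.inl rfl)
  have nq : ∀ {x y : V}, Quotient.mk st x ≠ Quotient.mk st y →
      ¬ Q.Adj (Quotient.mk st x) (Quotient.mk st y) → G.Adj x y := by
    intro x y h1 h2
    by_contra h3
    exact h2 ((hQ _ _).2 ⟨fun h => h1 ((hE _ _).2 h), h3⟩)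
  refine ⟨Quotient st, Q, Quotient.mk st, ?_, ?_, ?_⟩
  · -- diamond free
    intro a b c d
    induction a using Quotient.ind with | _ a => ?_
    induction b using Quotient.ind with | _ b => ?_
    induction c using Quotient.ind with | _ c => ?_
    induction d using Quotient.ind with | _ d => ?_
    intro hab hac had hbc hbd hcd
    by_contra hn
    have gcd := nq hcd hn
    -- a and b are not twins
    have hntw := ((hQ _ _).1 hab).1
    have : ∃ w, w ≠ a ∧ w ≠ b ∧ ¬ (G.Adj a w ↔ G.Adj b w) := by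
      by_contra hh
      push Not at hh
      exact hntw (Or.inr ⟨((hQ _ _).1 hab).2, hh⟩)
    -- the common argument
    have main : ∀ a b : V, Q.Adj (Quotient.mk st a) (Quotient.mk st b) →
        Q.Adj (Quotient.mk st a) (Quotient.mk st c) → Q.Adj (Quotient.mk st a) (Quotient.mk st d) →
        Q.Adj (Quotient.mk st b) (Quotient.mk st c) → Q.Adj (Quotient.mk st b) (Quotient.mk st d) →
        ∀ w, w ≠ a → w ≠ b → ¬ G.Adj a w → G.Adj b w → False := by
      intro a b hab hac had hbc hbd w wa wb haw hbw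
      obtain ⟨t, ht⟩ := hiso a
      have ab := ((hQ _ _).1 hab).2
      have ac := ((hQ _ _).1 hac).2
      have ad := ((hQ _ _).1 had).2
      have bc := ((hQ _ _).1 hbc).2
      have bd := ((hQ _ _).1 hbd).2
      have e1 : t ≠ b := by rintro rfl; exact ab ht
      have e2 : t ≠ c := by rintro rfl; exact ac ht
      have e3 : t ≠ d := by rintro rfl; exact ad ht
      have e4 : t ≠ w := by rintro rfl; exact haw ht
      have e5 : w ≠ c := by rintro rfl; exact bc hbw
      have e6 : w ≠ d := by rintro rfl; exact bd hbw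
      refine hB ⟨t, a, w, b, c, d, ⟨?_, ht.symm, hbw.symm, gcd⟩,
        Or.inl ⟨⟨haw, ab⟩, ⟨ac, ad⟩, ⟨bc, bd⟩⟩⟩
      simp only [Six, List.nodup_cons, List.mem_cons, List.not_mem_nil, or_false, not_or,
        List.nodup_nil, and_true, not_false_eq_true]
      exact ⟨⟨ht.ne.symm, e4, e1, e2, e3⟩, ⟨wa.symm, q_ne hab, q_ne hac, q_ne had⟩,
        ⟨wb, e5, e6⟩, ⟨q_ne hbc, q_ne hbd⟩, gcd.ne⟩
    obtain ⟨w, w1, w2, w3⟩ := this
    by_cases h1 : G.Adj a w
    · have h2 : ¬ G.Adj b w := fun h => w3 ⟨fun _ => h, fun _ => h1⟩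
      exact main b a hab.symm hbc hbd hac had w w2 w1 h2 h1
    · have h2 : G.Adj b w := by
        by_contra h
        exact w3 ⟨fun h' => absurd h' h1, fun h' => absurd h' h⟩
      exact main a b hab hac had hbc hbd w w1 w2 h1 h2
  · -- `K_{3,3} - e` free
    intro a b c a' b' c'
    induction a using Quotient.ind with | _ a => ?_
    induction b using Quotient.ind with | _ b => ?_
    induction c using Quotient.ind with | _ c => ?_
    induction a' using Quotient.ind with | _ a' => ?_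
    induction b' using Quotient.ind with | _ b' => ?_
    induction c' using Quotient.ind with | _ c' => ?_
    intro nbc nbc' ab ac bc ab' ac' bc' hab' hac' hba' hbb' hbc' hca' hcb' hcc'
    by_contra hn
    have naa' : Quotient.mk st a ≠ Quotient.mk st a' := by
      intro h; rw [← h] at hba'; exact ab hba'.symm
    have gaa' := nq naa' hn
    have gbc := nq nbc bc
    have gbc' := nq nbc' bc'
    have n1 : a ≠ b := by rintro rfl; exact hn hba'
    have n2 : a ≠ c := by rintro rfl; exact hn hca'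
    have n3 : a' ≠ b' := by rintro rfl; exact hn hab'
    have n4 : a' ≠ c' := by rintro rfl; exact hn hac'
    refine hB ⟨a', a, b', c', b, c, ⟨?_, gaa'.symm, gbc', gbc⟩, Or.inr ⟨⟨((hQ _ _).1 hab').2,
      ((hQ _ _).1 hac').2⟩, ⟨((hQ _ _).1 hba'.symm).2, ((hQ _ _).1 hca'.symm).2⟩,
      ⟨((hQ _ _).1 hbb'.symm).2, ((hQ _ _).1 hcb'.symm).2⟩,
      ⟨((hQ _ _).1 hbc'.symm).2, ((hQ _ _).1 hcc'.symm).2⟩⟩⟩
    simp only [Six, List.nodup_cons, List.mem_cons, List.not_mem_nil, or_false, not_or,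
      List.nodup_nil, and_true, not_false_eq_true]
    exact ⟨⟨gaa'.ne.symm, n3, n4, (q_ne hba').symm, (q_ne hca').symm⟩,
      ⟨q_ne hab', q_ne hac', n1, n2⟩, ⟨gbc'.ne, (q_ne hbb').symm, (q_ne hcb').symm⟩,
      ⟨(q_ne hbc').symm, (q_ne hcc').symm⟩, gbc.ne⟩
  · intro x y hxy
    rw [hE, hQ]
    constructor
    · intro h
      by_cases ht : tw x y
      · exact Or.inl ht
      · exact Or.inr ⟨ht, h⟩
    · rintro (h | h)
      · rcases h with h | h
        · exact absurd h hxy
        · exact h.1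
      · exact h.2

end Helper66.FN
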