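import Mathlib
import Pool.Agent.Helper66.FN.Main

/-! Minimum forcing number `n - 2`: the theorem for `3`-extendable graphs. -/

namespace Helper66.FN

open SimpleGraph

universe u

variable {V : Type u} {G : SimpleGraph V}

/-- every three disjoint edges of `G` lie in a perfect matching of `G` -/
def ThreeExtendable (G : SimpleGraph V) : Prop :=
  ∀ M : G.Subgraph, M.IsMatching → M.edgeSet.ncard = 3 →
    ∃ N : G.Subgraph, N.IsPerfectMatching ∧ M ≤ N

lemma ext_fun (h : ThreeExtendable G) {a a' b b' c c' : V} (hT : Tri G a a' b b' c c') :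
    ∃ f, IsPM G f ∧ f a = a' ∧ f b = b' ∧ f c = c' := by
  obtain ⟨h6, h1, h2, h3⟩ := hT
  simp only [Six, List.nodup_cons, List.mem_cons, List.not_mem_nil, or_false, not_or,
    List.nodup_nil, and_true, not_false_eq_true] at h6
  obtain ⟨⟨n12, n13, n14, n15, n16⟩, ⟨n23, n24, n25, n26⟩, ⟨n34, n35, n36⟩, ⟨n45, n46⟩, n56⟩ := h6
  have m1 := Subgraph.IsMatching.subgraphOfAdj h1
  have m2 := Subgraph.IsMatching.subgraphOfAdj h2
  have m3 := Subgraph.IsMatching.subgraphOfAdj h3
  have m12 : (G.subgraphOfAdj h1 ⊔ G.subgraphOfAdj h2).IsMatching := by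
    refine m1.sup m2 ?_
    rw [Set.disjoint_left]
    intro v hv hv'
    rw [m1.support_eq_verts] at hv
    rw [m2.support_eq_verts] at hv'
    simp only [subgraphOfAdj_verts, Set.mem_insert_iff, Set.mem_singleton_iff] at hv hv'
    rcases hv with rfl | rfl <;> rcases hv' with h' | h'
    exacts [n13 h', n14 h', n23 h', n24 h']
  have m123 : (G.subgraphOfAdj h1 ⊔ G.subgraphOfAdj h2 ⊔ G.subgraphOfAdj h3).IsMatching := by
    refine m12.sup m3 ?_
    rw [Set.disjoint_left]
    intro v hv hv'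
    rw [m12.support_eq_verts] at hv
    rw [m3.support_eq_verts] at hv'
    simp only [Subgraph.verts_sup, subgraphOfAdj_verts, Set.mem_union, Set.mem_insert_iff,
      Set.mem_singleton_iff] at hv hv'
    rcases hv with (rfl | rfl) | (rfl | rfl) <;> rcases hv' with h' | h'
    exacts [n15 h', n16 h', n25 h', n26 h', n35 h', n36 h', n45 h', n46 h']
  obtain ⟨N, hN, hle⟩ := h _ m123 (by
    rw [Subgraph.edgeSet_sup, Subgraph.edgeSet_sup, edgeSet_subgraphOfAdj,
      edgeSet_subgraphOfAdj, edgeSet_subgraphOfAdj]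
    have e : ({s(a, a')} ∪ {s(b, b')} ∪ {s(c, c')} : Set (Sym2 V)) =
        {s(a, a'), s(b, b'), s(c, c')} := by
      ext e; simp only [Set.mem_union, Set.mem_singleton_iff, Set.mem_insert_iff]; tauto
    rw [e, Set.ncard_eq_three]
    refine ⟨_, _, _, ?_, ?_, ?_, rfl⟩
    · rw [Ne, Sym2.eq_iff]; rintro (⟨h, -⟩ | ⟨h, -⟩); exacts [n13 h, n14 h]
    · rw [Ne, Sym2.eq_iff]; rintro (⟨h, -⟩ | ⟨h, -⟩); exacts [n15 h, n16 h]
    · rw [Ne, Sym2.eq_iff]; rintro (⟨h, -⟩ | ⟨h, -⟩); exacts [n35 h, n36 h])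
  obtain ⟨f, hf, hNf⟩ := exists_fun hN
  refine ⟨f, hf, ?_, ?_, ?_⟩
  · rw [← hNf]
    apply hle.2
    simp
  · rw [← hNf]
    apply hle.2
    simp
  · rw [← hNf]
    apply hle.2
    simp

section

variable [Fintype V] [DecidableEq V]

/-- no pattern: all forcing numbers are at least `n - 2` -/
lemma le_forcing_of_not_bad {n : ℕ} (hn : Fintype.card V = 2 * n) (hB : ¬ Bad G)
    {M : G.Subgraph} (hM : M.IsPerfectMatching) : n ≤ forcingNumber G M + 2 := by
  obtain ⟨f, hf, hMf⟩ := exists_fun hM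
  have := le_forcing hM hf hMf 2 (by
    intro T hT hc
    obtain ⟨e₁, e₂, e₃, h12, h13, h23, rfl⟩ := Finset.card_eq_three.1 hc
    have hmem : ∀ e ∈ ({e₁, e₂, e₃} : Finset (Sym2 V)), ∃ v, e = s(v, f v) := by
      intro e he
      have := hT (Finset.mem_coe.2 he)
      induction e using Sym2.ind with
      | _ x y => exact ⟨x, by rw [(mem_edge hMf x y).1 this]⟩
    obtain ⟨a, rfl⟩ := hmem e₁ (by simp)
    obtain ⟨b, rfl⟩ := hmem e₂ (by simp)
    obtain ⟨c, rfl⟩ := hmem e₃ (by simp)
    have key : ∀ {a b : V}, s(a, f a) ≠ s(b, f b) →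
        a ≠ b ∧ a ≠ f b ∧ f a ≠ b ∧ f a ≠ f b := by
      intro a b h
      refine ⟨?_, ?_, ?_, ?_⟩
      · rintro rfl; exact h rfl
      · intro h'
        apply h
        rw [Sym2.eq_iff]
        exact Or.inr ⟨h', by rw [h', (hf b).1]⟩
      · intro h'
        apply h
        rw [Sym2.eq_iff]
        exact Or.inr ⟨by rw [← h', (hf a).1], h'⟩
      · intro h'
        apply h
        have : a = b := by rw [← (hf a).1, h', (hf b).1]
        rw [this]
    obtain ⟨p1, p2, p3, p4⟩ := key h12
    obtain ⟨q1, q2, q3, q4⟩ := key h13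
    obtain ⟨r1, r2, r3, r4⟩ := key h23
    have h6 : Six a (f a) b (f b) c (f c) := by
      simp only [Six, List.nodup_cons, List.mem_cons, List.not_mem_nil, or_false, not_or,
        List.nodup_nil, and_true, not_false_eq_true]
      exact ⟨⟨(hf a).2.ne, p1, p2, q1, q2⟩, ⟨p3, p4, q3, q4⟩, ⟨(hf b).2.ne, r1, r2⟩, ⟨r3, r4⟩,
        (hf c).2.ne⟩
    have hr : Rear G a (f a) b (f b) c (f c) := by
      by_contra hr
      exact hB (bad_of_hyp ⟨⟨h6, (hf a).2, (hf b).2, (hf c).2⟩, hr⟩)
    refine ⟨{a, f a, b, f b, c, f c}, ?_, rear_pm h6 (hf a).2 (hf b).2 (hf c).2 rfl (hf a).1 rfl hr⟩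
    intro v hv
    simp only [Finset.mem_insert, Finset.mem_singleton] at hv ⊢
    rcases hv with rfl | rfl | rfl | rfl | rfl | rfl
    · exact ⟨by simp, by simp⟩
    · rw [(hf a).1]; exact ⟨by simp, by rw [Sym2.eq_swap]; simp⟩
    · exact ⟨by simp, by simp⟩
    · rw [(hf b).1]; exact ⟨by simp, by rw [Sym2.eq_swap]; simp⟩
    · exact ⟨by simp, by simp⟩
    · rw [(hf c).1]; exact ⟨by simp, by rw [Sym2.eq_swap]; simp⟩)
  omega

/-- a pattern inside a `3`-extendable graph gives a small forcing set -/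
lemma forcing_of_bad {n : ℕ} (hn : Fintype.card V = 2 * n) (h3 : 3 ≤ n)
    (hext : ThreeExtendable G) (hB : Bad G) :
    ∃ M : G.Subgraph, M.IsPerfectMatching ∧ forcingNumber G M + 3 ≤ n := by
  obtain ⟨x₁, y₁, x₂, y₂, x₃, y₃, hT, hP⟩ := hB
  obtain ⟨f, hf, f1, f2, f3⟩ := ext_fun hext hT
  have g1 : f y₁ = x₁ := by rw [← f1, (hf _).1]
  have g2 : f y₂ = x₂ := by rw [← f2, (hf _).1]
  have g3 : f y₃ = x₃ := by rw [← f3, (hf _).1]
  have hu := unique_of_pattern hT hP f1 g1 f2 g2 f3 g3
  have hclosed : ∀ v ∈ ({x₁, y₁, x₂, y₂, x₃, y₃} : Finset V),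
      f v ∈ ({x₁, y₁, x₂, y₂, x₃, y₃} : Finset V) := by
    intro v hv
    simp only [Finset.mem_insert, Finset.mem_singleton] at hv
    rcases hv with rfl | rfl | rfl | rfl | rfl | rfl
    · rw [f1]; simp
    · rw [g1]; simp
    · rw [f2]; simp
    · rw [g2]; simp
    · rw [f3]; simp
    · rw [g3]; simp
  have hle := forcing_of_unique (toSub_isPM hf) hf (toSub_adj hf) _ hclosed
    (fun g hg => hu g hg)
  have hcard : ({x₁, y₁, x₂, y₂, x₃, y₃} : Finset V).card = 6 := by
    have h6 := hT.1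
    have : ({x₁, y₁, x₂, y₂, x₃, y₃} : Finset V) = [x₁, y₁, x₂, y₂, x₃, y₃].toFinset := by
      simp
    rw [this, List.toFinset_card_of_nodup h6]
    rfl
  rw [hcard, hn] at hle
  exact ⟨_, toSub_isPM hf, by omega⟩

/-- the matching `ab`, `cd` -/
def mk4 (a b c d : V) : V → V := fun v =>
  if v = a then b else if v = b then a else if v = c then d else if v = d then c else v

omit [Fintype V] in
lemma pmon_mk4 {a b c d : V} (n12 : a ≠ b) (n13 : a ≠ c) (n14 : a ≠ d) (n23 : b ≠ c)
    (n24 : b ≠ d) (n34 : c ≠ d) (h1 : G.Adj a b) (h2 : G.Adj c d) :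
    PMon G {a, b, c, d} (mk4 a b c d) := by
  intro v hv
  simp only [Finset.mem_insert, Finset.mem_singleton] at hv
  have e1 : mk4 a b c d a = b := by simp [mk4]
  have e2 : mk4 a b c d b = a := by simp [mk4, Ne.symm n12]
  have e3 : mk4 a b c d c = d := by simp [mk4, Ne.symm n13, Ne.symm n23]
  have e4 : mk4 a b c d d = c := by simp [mk4, Ne.symm n14, Ne.symm n24, Ne.symm n34]
  rcases hv with rfl | rfl | rfl | rfl
  · rw [e1, e2]; exact ⟨by simp, rfl, h1⟩
  · rw [e2, e1]; exact ⟨by simp, rfl, h1.symm⟩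
  · rw [e3, e4]; exact ⟨by simp, rfl, h2⟩
  · rw [e4, e3]; exact ⟨by simp, rfl, h2.symm⟩

/-- complete multipartite graphs have all forcing numbers at least `n - 1` -/
lemma le_forcing_of_cm {n : ℕ} (hn : Fintype.card V = 2 * n) (hC : G.IsCompleteMultipartite)
    {M : G.Subgraph} (hM : M.IsPerfectMatching) : n ≤ forcingNumber G M + 1 := by
  obtain ⟨f, hf, hMf⟩ := exists_fun hM
  have := le_forcing hM hf hMf 1 (by
    intro T hT hc
    obtain ⟨e₁, e₂, h12, rfl⟩ := Finset.card_eq_two.1 hc
    have hmem : ∀ e ∈ ({e₁, e₂} : Finset (Sym2 V)), ∃ v, e = s(v, f v) := by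
      intro e he
      have := hT (Finset.mem_coe.2 he)
      induction e using Sym2.ind with
      | _ x y => exact ⟨x, by rw [(mem_edge hMf x y).1 this]⟩
    obtain ⟨a, rfl⟩ := hmem e₁ (by simp)
    obtain ⟨b, rfl⟩ := hmem e₂ (by simp)
    have p1 : a ≠ b := by rintro rfl; exact h12 rfl
    have p2 : a ≠ f b := by
      intro h'
      apply h12
      rw [Sym2.eq_iff]
      exact Or.inr ⟨h', by rw [h', (hf b).1]⟩
    have p3 : f a ≠ b := by
      intro h'
      apply h12
      rw [Sym2.eq_iff]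
      exact Or.inr ⟨by rw [← h', (hf a).1], h'⟩
    have p4 : f a ≠ f b := by
      intro h'
      apply p1
      rw [← (hf a).1, h', (hf b).1]
    have hab : G.Adj a (f a) := (hf a).2
    have hbb : G.Adj b (f b) := (hf b).2
    have tr : ∀ x y z, ¬ G.Adj x y → ¬ G.Adj y z → ¬ G.Adj x z := fun x y z => hC.trans x y z
    refine ⟨{a, f a, b, f b}, ?_, ?_⟩
    · intro v hv
      simp only [Finset.mem_insert, Finset.mem_singleton] at hv ⊢
      rcases hv with rfl | rfl | rfl | rfl
      · exact ⟨by simp, by simp⟩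
      · rw [(hf a).1]; exact ⟨by simp, by rw [Sym2.eq_swap]; simp⟩
      · exact ⟨by simp, by simp⟩
      · rw [(hf b).1]; exact ⟨by simp, by rw [Sym2.eq_swap]; simp⟩
    · by_cases h1 : G.Adj a b ∧ G.Adj (f a) (f b)
      · refine ⟨mk4 a b (f a) (f b), ?_, a, by simp, ?_⟩
        · have := pmon_mk4 (G := G) p1 hab.ne p2 p3.symm hbb.ne p4 h1.1 h1.2
          have e : ({a, f a, b, f b} : Finset V) = {a, b, f a, f b} := by
            ext v; simp only [Finset.mem_insert, Finset.mem_singleton]; tauto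
          rw [e]; exact this
        · simp only [mk4, if_true]; exact p3.symm
      · have h2 : G.Adj a (f b) ∧ G.Adj (f a) b := by
          rw [not_and_or] at h1
          rcases h1 with h1 | h1
          · constructor
            · by_contra h
              exact tr b a (f b) (fun h' => h1 h'.symm) h hbb
            · by_contra h
              exact tr a b (f a) h1 (fun h' => h h'.symm) hab
          · constructor
            · by_contra h
              exact tr a (f b) (f a) h (fun h' => h1 h'.symm) hab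
            · by_contra h
              exact tr b (f a) (f b) (fun h' => h h'.symm) h1 hbb
        refine ⟨mk4 a (f b) (f a) b, ?_, a, by simp, ?_⟩
        · have := pmon_mk4 (G := G) p2 hab.ne p1 p4.symm hbb.ne.symm p3 h2.1 h2.2
          have e : ({a, f a, b, f b} : Finset V) = {a, f b, f a, b} := by
            ext v; simp only [Finset.mem_insert, Finset.mem_singleton]; tauto
          rw [e]; exact this
        · simp only [mk4, if_true]; exact p4.symm)
  omega

/-- a `3`-extendable graph that is not complete multipartite has a small forcing number -/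
lemma forcing_of_not_cm {n : ℕ} (hn : Fintype.card V = 2 * n) (h4 : 4 ≤ n)
    (hext : ThreeExtendable G) {M₀ : G.Subgraph} (hM₀ : M₀.IsPerfectMatching)
    (hC : ¬ G.IsCompleteMultipartite) :
    ∃ M : G.Subgraph, M.IsPerfectMatching ∧ forcingNumber G M + 2 ≤ n := by
  obtain ⟨f₀, hf₀, -⟩ := exists_fun hM₀
  have : ∃ x y z, ¬ G.Adj x y ∧ ¬ G.Adj y z ∧ G.Adj x z := by
    by_contra hh
    push Not at hh
    exact hC ⟨fun x y z h1 h2 h3 => hh x y z h1 h2 h3⟩
  obtain ⟨x, y, z, hxy, hyz, hxz⟩ := this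
  set w := f₀ y with hw
  have hyw : G.Adj y w := (hf₀ y).2
  have hfw : f₀ w = y := (hf₀ y).1
  have nyx : y ≠ x := by rintro rfl; exact hyz hxz
  have nyz : y ≠ z := by rintro rfl; exact hxy hxz
  have nwx : w ≠ x := by intro h; rw [h] at hyw; exact hxy hyw.symm
  have nwz : w ≠ z := by intro h; rw [h] at hyw; exact hyz hyw
  -- an edge away from these four vertices
  have : ∃ v, v ∉ ({x, z, y, w} : Finset V) ∧ f₀ v ∉ ({x, z, y, w} : Finset V) := by
    by_contra hh
    push Not at hh
    have hsub : ({x, z, y, w} : Finset V)ᶜ ⊆ {f₀ x, f₀ z} := by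
      intro v hv
      rw [Finset.mem_compl] at hv
      have h1 := hh v hv
      simp only [Finset.mem_insert, Finset.mem_singleton, not_or] at h1 hv ⊢
      rcases h1 with h1 | h1 | h1 | h1
      · left; rw [← h1, (hf₀ v).1]
      · right; rw [← h1, (hf₀ v).1]
      · exfalso
        apply hv.2.2.2
        rw [← (hf₀ v).1, h1]
      · exfalso
        apply hv.2.2.1
        rw [← (hf₀ v).1, h1, hfw]
    have h1 := Finset.card_le_card hsub
    have h2 : ({f₀ x, f₀ z} : Finset V).card ≤ 2 := Finset.card_le_two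
    have h3 : ({x, z, y, w} : Finset V).card ≤ 4 := Finset.card_le_four
    rw [Finset.card_compl] at h1
    omega
  obtain ⟨v, hv1, hv2⟩ := this
  simp only [Finset.mem_insert, Finset.mem_singleton, not_or] at hv1 hv2
  have hT : Tri G x z y w v (f₀ v) := by
    refine ⟨?_, hxz, hyw, (hf₀ v).2⟩
    simp only [Six, List.nodup_cons, List.mem_cons, List.not_mem_nil, or_false, not_or,
      List.nodup_nil, and_true, not_false_eq_true]
    exact ⟨⟨hxz.ne, nyx.symm, nwx.symm, Ne.symm hv1.1, Ne.symm hv2.1⟩,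
      ⟨nyz.symm, nwz.symm, Ne.symm hv1.2.1, Ne.symm hv2.2.1⟩,
      ⟨hyw.ne, Ne.symm hv1.2.2.1, Ne.symm hv2.2.2.1⟩,
      ⟨Ne.symm hv1.2.2.2, Ne.symm hv2.2.2.2⟩, (hf₀ v).2.ne⟩
  obtain ⟨f, hf, f1, f2, -⟩ := ext_fun hext hT
  have g1 : f z = x := by rw [← f1, (hf _).1]
  have g2 : f w = y := by rw [← f2, (hf _).1]
  have hclosed : ∀ v ∈ ({x, z, y, w} : Finset V), f v ∈ ({x, z, y, w} : Finset V) := by
    intro v hv
    simp only [Finset.mem_insert, Finset.mem_singleton] at hv
    rcases hv with h | h | h | h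
    · rw [h, f1]; simp
    · rw [h, g1]; simp
    · rw [h, f2]; simp
    · rw [h, g2]; simp
  have hu : ∀ g, PMon G {x, z, y, w} g → ∀ v ∈ ({x, z, y, w} : Finset V), g v = f v := by
    intro g hg
    have e1 : g y = w := by
      obtain ⟨c, -, d⟩ := hg y (by simp)
      simp only [Finset.mem_insert, Finset.mem_singleton] at c
      rcases c with c | c | c | c
      · rw [c] at d; exact absurd d.symm hxy
      · rw [c] at d; exact absurd d hyz
      · rw [c] at d; exact absurd d G.irrefl
      · exact c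
    have e1' : g w = y := by rw [← e1]; exact (hg y (by simp)).2.1
    have e2 : g x = z := by
      obtain ⟨c, b, d⟩ := hg x (by simp)
      simp only [Finset.mem_insert, Finset.mem_singleton] at c
      rcases c with c | c | c | c
      · rw [c] at d; exact absurd d G.irrefl
      · exact c
      · rw [c, e1] at b; exact absurd b nwx
      · rw [c, e1'] at b; exact absurd b nyx
    have e2' : g z = x := by rw [← e2]; exact (hg x (by simp)).2.1
    intro v hv
    simp only [Finset.mem_insert, Finset.mem_singleton] at hv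
    rcases hv with h | h | h | h
    · rw [h, f1, e2]
    · rw [h, g1, e2']
    · rw [h, f2, e1]
    · rw [h, g2, e1']
  have hle := forcing_of_unique (toSub_isPM hf) hf (toSub_adj hf) _ hclosed hu
  have hcard : ({x, z, y, w} : Finset V).card = 4 := by
    have : ({x, z, y, w} : Finset V) = [x, z, y, w].toFinset := by simp
    rw [this, List.toFinset_card_of_nodup]
    · rfl
    · simp only [List.nodup_cons, List.mem_cons, List.not_mem_nil, or_false, not_or,
        List.nodup_nil, and_true, not_false_eq_true]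
      exact ⟨⟨hxz.ne, nyx.symm, nwx.symm⟩, ⟨nyz.symm, nwz.symm⟩, hyw.ne⟩
  rw [hcard, hn] at hle
  exact ⟨_, toSub_isPM hf, by omega⟩

/-- The classification for `3`-extendable graphs. -/
theorem minForcing_iff {n : ℕ} (hn : Fintype.card V = 2 * n) (h4 : 4 ≤ n)
    (hpm : ∃ M : G.Subgraph, M.IsPerfectMatching) (hext : ThreeExtendable G) :
    minForcing G = n - 2 ↔ ¬ G.IsCompleteMultipartite ∧ Structured G := by
  obtain ⟨M₀, hM₀⟩ := hpm
  have hne : ∃ k, ∃ M : G.Subgraph, M.IsPerfectMatching ∧ forcingNumber G M = k :=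
    ⟨_, M₀, hM₀, rfl⟩
  obtain ⟨f₀, hf₀, -⟩ := exists_fun hM₀
  constructor
  · intro h
    have hall : ∀ M : G.Subgraph, M.IsPerfectMatching → n - 2 ≤ forcingNumber G M := by
      intro M hM
      rw [← h]
      exact Nat.sInf_le ⟨M, hM, rfl⟩
    refine ⟨?_, ?_⟩
    · intro hC
      obtain ⟨M, hM, hMm⟩ := Nat.sInf_mem hne
      change forcingNumber G M = minForcing G at hMm
      have := le_forcing_of_cm hn hC hM
      omega
    · refine structured_of_not_bad (fun v => ⟨f₀ v, (hf₀ v).2⟩) ?_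
      intro hB
      obtain ⟨M, hM, hlt⟩ := forcing_of_bad hn (by omega) hext hB
      have := hall M hM
      omega
  · rintro ⟨hC, hS⟩
    have hB := hS.not_bad
    obtain ⟨M, hM, hMm⟩ := Nat.sInf_mem hne
    change forcingNumber G M = minForcing G at hMm
    have h1 := le_forcing_of_not_bad hn hB hM
    obtain ⟨M', hM', h2⟩ := forcing_of_not_cm hn h4 hext hM₀ hC
    have h3 : minForcing G ≤ forcingNumber G M' := Nat.sInf_le ⟨M', hM', rfl⟩
    omega

end

end Helper66.FN
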